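import Pool.Agent.P.MP_09d285_al.FP.Lin

/-! The angle between the fixed spaces of two blocks of generators. -/

namespace Pool.Agent.P.MP_09d285_al.FP

open scoped InnerProductSpace ComplexConjugate commutatorElement

variable {V : Type*} [NormedAddCommGroup V] [InnerProductSpace ℂ V]

theorem comm_apply (S T : V ≃ₗᵢ[ℂ] V) (v : V) : S (T v) = ⁅S, T⁆ (T (S v)) := by
  have h : S * T = ⁅S, T⁆ * (T * S) := by
    rw [commutatorElement_def]; group
  exact congrArg (fun W : V ≃ₗᵢ[ℂ] V => W v) h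

theorem commute_apply {S T : V ≃ₗᵢ[ℂ] V} (h : Commute S T) (v : V) : S (T v) = T (S v) :=
  congrArg (fun W : V ≃ₗᵢ[ℂ] V => W v) h.eq

theorem doubling {ι : Type*} (X Y : ι → (V ≃ₗᵢ[ℂ] V))
    (hzy : ∀ a b c, Commute ⁅X a, Y b⁆ (Y c)) (Ψ : ι → ι → ℂ) (a b : V)
    (ha : ∀ α, X α a = a) (hb : ∀ β, Y β b = b) (hΨ : ∀ α β, ⁅X α, Y β⁆ a = Ψ α β • a)
    (L : List (ι × ι)) (h1 : ∀ p ∈ L, Ψ p.1 p.2 ≠ 1) (h2 : L.Pairwise (fun p q => Ψ p.1 q.2 = 1)) :
    ∃ m : V, ⟪m, b⟫_ℂ = 2 ^ L.length * ⟪a, b⟫_ℂ ∧ ‖m‖ ^ 2 = 2 ^ L.length * ‖a‖ ^ 2 ∧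
      (∀ α β, ⁅X α, Y β⁆ m = Ψ α β • m) ∧ ∀ α, (∀ q ∈ L, Ψ α q.2 = 1) → X α m = m := by
  induction L with
  | nil => exact ⟨a, by simp, by simp, hΨ, fun α _ => ha α⟩
  | cons p L ih =>
    obtain ⟨m, hm1, hm2, hm3, hm4⟩ := ih (fun q hq => h1 q (List.mem_cons_of_mem _ hq))
      (List.pairwise_cons.mp h2).2
    have hfix : X p.1 m = m := hm4 _ (List.pairwise_cons.mp h2).1
    have hXY : ∀ α, X α m = m → X α (Y p.2 m) = Ψ α p.2 • Y p.2 m := by
      intro α hα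
      rw [comm_apply (X α), hα, commute_apply (hzy _ _ _), hm3, map_smul]
    have horth : ⟪m, Y p.2 m⟫_ℂ = 0 :=
      inner_eq_zero_of_eigen (X p.1) hfix (hXY _ hfix) (h1 p List.mem_cons_self)
    refine ⟨m + Y p.2 m, ?_, ?_, ?_, ?_⟩
    · have h := (Y p.2).inner_map_map m b
      rw [hb] at h
      rw [inner_add_left, h, hm1, List.length_cons]
      ring
    · have h := norm_add_sq (𝕜 := ℂ) m (Y p.2 m)
      rw [horth, LinearIsometryEquiv.norm_map, hm2] at h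
      rw [h, List.length_cons]
      simp only [map_zero]
      ring
    · intro α β
      rw [map_add, commute_apply (hzy _ _ _), hm3, map_smul, smul_add]
    · intro α hα
      have h := hm4 α fun q hq => hα q (List.mem_cons_of_mem _ hq)
      rw [map_add, hXY α h, h, hα p List.mem_cons_self, one_smul]

theorem list_prod_eigen {κ : Type*} (T : κ → (V ≃ₗᵢ[ℂ] V)) (c : κ → ℂ) (a : V)
    (h : ∀ k, T k a = c k • a) (L : List κ) : (L.map T).prod a = (L.map c).prod • a := by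
  induction L with
  | nil => simp
  | cons k L ih =>
    rw [List.map_cons, List.prod_cons, List.map_cons, List.prod_cons]
    change T k ((L.map T).prod a) = _
    rw [ih, map_smul, h, smul_smul, mul_comm]

/-- The vectors fixed by a family of unitary maps. -/
def fixedBy {ι : Type*} (X : ι → (V ≃ₗᵢ[ℂ] V)) : Submodule ℂ V where
  carrier := {v | ∀ α, X α v = v}
  add_mem' := fun {a b} ha hb α => by rw [map_add, ha α, hb α]
  zero_mem' := fun α => map_zero _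
  smul_mem' := fun c v hv α => by rw [map_smul, hv α]

theorem mem_fixedBy {ι : Type*} {X : ι → (V ≃ₗᵢ[ℂ] V)} {v : V} :
    v ∈ fixedBy X ↔ ∀ α, X α v = v := Iff.rfl

theorem angle {t : ℕ} (X Y : Idx t → (V ≃ₗᵢ[ℂ] V)) (F : Subgroup (V ≃ₗᵢ[ℂ] V)) [Finite F]
    (hXF : ∀ a, X a ∈ F) (hYF : ∀ a, Y a ∈ F) (n : ℕ) (hn : 0 < n) (hYn : ∀ a, Y a ^ n = 1)
    (hyy : ∀ a b, Commute (Y a) (Y b))
    (hzx : ∀ a b c, Commute ⁅X a, Y b⁆ (X c)) (hzy : ∀ a b c, Commute ⁅X a, Y b⁆ (Y c))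
    (hrel : ∀ (l : Fin 3) (a b : Fin t × Fin t) (s : Fin (2 * t)),
      ((anti t s).toList.map fun pq => ⁅X (emb l pq.1 a), Y (emb l pq.2 b)⁆).prod = 1) :
    ∀ a ∈ fixedBy X ⊓ (fixedBy X ⊓ fixedBy Y)ᗮ, ∀ b ∈ fixedBy Y,
      2 * (⟪a, b⟫_ℂ).re ≤ 1 / 16 * (‖a‖ ^ 2 + ‖b‖ ^ 2) := by
  classical
  let k : Set (V ≃ₗᵢ[ℂ] V) := Set.range fun p : Idx t × Idx t => ⁅X p.1, Y p.2⁆
  have hk : ∀ z ∈ k, ∀ w ∈ k, z * w = w * z := by
    rintro _ ⟨p, rfl⟩ _ ⟨q, rfl⟩
    have h : Commute ⁅X p.1, Y p.2⁆ ⁅X q.1, Y q.2⁆ := by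
      rw [commutatorElement_def (X q.1)]
      exact (((hzx _ _ _).mul_right (hzy _ _ _)).mul_right (hzx _ _ _).inv_right).mul_right
        (hzy _ _ _).inv_right
    exact h.eq
  let _ : CommGroup (Subgroup.closure k) :=
    { (inferInstance : Group (Subgroup.closure k)) with
      mul_comm := (Subgroup.isMulCommutative_closure hk).is_comm.comm }
  have hle : Subgroup.closure k ≤ F := by
    rw [Subgroup.closure_le]
    rintro _ ⟨p, rfl⟩
    exact F.mul_mem (F.mul_mem (F.mul_mem (hXF _) (hYF _)) (F.inv_mem (hXF _)))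
      (F.inv_mem (hYF _))
  have hfin : Finite (Subgroup.closure k) :=
    Finite.of_injective _ (Subgroup.inclusion_injective hle)
  have hcen : ∀ (T : V ≃ₗᵢ[ℂ] V), (∀ a b, Commute ⁅X a, Y b⁆ T) →
      ∀ z ∈ Subgroup.closure k, Commute z T := by
    intro T hT z hz
    induction hz using Subgroup.closure_induction with
    | mem z hz => obtain ⟨p, rfl⟩ := hz; exact hT _ _
    | one => exact Commute.one_left _
    | mul a b _ _ ha hb => exact ha.mul_left hb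
    | inv a _ ha => exact ha.inv_left
  have hZX : ∀ z ∈ Subgroup.closure k, ∀ u ∈ fixedBy X, z u ∈ fixedBy X := by
    intro z hz u hu α
    rw [← commute_apply (hcen _ (fun a b => hzx a b α) z hz), hu α]
  have hZY : ∀ z ∈ Subgroup.closure k, ∀ u ∈ fixedBy Y, z u ∈ fixedBy Y := by
    intro z hz u hu α
    rw [← commute_apply (hcen _ (fun a b => hzy a b α) z hz), hu α]
  refine split (Z := Subgroup.closure k) (Subgroup.closure k).subtype _ _ ?_
    (fun z => hZY z z.2) _ ?_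
  · intro z u hu
    refine ⟨hZX z z.2 u hu.1, ?_⟩
    intro w hw
    have hz' := (Subgroup.closure k).inv_mem z.2
    have h := hu.2 _ ⟨hZX _ hz' w hw.1, hZY _ hz' w hw.2⟩
    rw [← h, ← (z : V ≃ₗᵢ[ℂ] V).inner_map_map ((z : V ≃ₗᵢ[ℂ] V)⁻¹ w) u]
    congr 1
    exact ((z : V ≃ₗᵢ[ℂ] V).apply_symm_apply w).symm
  intro ψ a ha b hb hψa hψb
  let Ψ : Idx t → Idx t → ℂ := fun α β => ψ ⟨⁅X α, Y β⁆, Subgroup.subset_closure ⟨(α, β), rfl⟩⟩
  have hΨa : ∀ α β, ⁅X α, Y β⁆ a = Ψ α β • a := fun α β => hψa ⟨_, _⟩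
  by_cases ha0 : a = 0
  · rw [ha0, inner_zero_left]
    simp only [Complex.zero_re, mul_zero]
    positivity
  by_cases hΨ : ∃ α β, Ψ α β ≠ 1
  · obtain ⟨L, hL, h1, h2⟩ := pattern_eight Ψ (fun l c d s => by
      have h := list_prod_eigen (fun pq : Fin t × Fin t => ⁅X (emb l pq.1 c), Y (emb l pq.2 d)⁆)
        (fun pq => Ψ (emb l pq.1 c) (emb l pq.2 d)) a (fun pq => hΨa _ _) (anti t s).toList
      rw [hrel, Finset.prod_map_toList] at h
      have h' : (1 : ℂ) • a = (∏ pq ∈ anti t s, Ψ (emb l pq.1 c) (emb l pq.2 d)) • a := by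
        rw [one_smul]; exact h
      exact (smul_left_injective ℂ ha0 h').symm) hΨ
    obtain ⟨m, hm1, hm2, -, -⟩ := doubling X Y hzy Ψ a b ha.1 hb hΨa L h1 h2
    rw [hL] at hm1 hm2
    have h3 : ‖m‖ = 16 * ‖a‖ := by
      have : ‖m‖ ^ 2 = (16 * ‖a‖) ^ 2 := by rw [hm2]; ring
      exact (pow_left_inj₀ (norm_nonneg _) (by positivity) two_ne_zero).mp this
    have h4 : (⟪m, b⟫_ℂ).re ≤ ‖m‖ * ‖b‖ :=
      (Complex.re_le_norm _).trans (norm_inner_le_norm _ _)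
    have h5 : (⟪m, b⟫_ℂ).re = 256 * (⟪a, b⟫_ℂ).re := by
      rw [hm1]
      norm_num
    rw [h5, h3] at h4
    nlinarith [sq_nonneg (‖a‖ - ‖b‖)]
  · push Not at hΨ
    let U : Submodule ℂ V := fixedBy X ⊓ (fixedBy X ⊓ fixedBy Y)ᗮ ⊓
      fixedBy (fun p : Idx t × Idx t => ⁅X p.1, Y p.2⁆)
    have haU : a ∈ U := ⟨ha, fun p => by rw [hΨa, hΨ, one_smul]⟩
    obtain ⟨u, hu, hℓ, hfix⟩ := fix Finset.univ
      (fun β => ((Y β).toLinearEquiv : Module.End ℂ V)) n hn (innerₛₗ ℂ b) U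
      (fun β u hu => by
        have h3 : ∀ p : Idx t × Idx t, ⁅X p.1, Y p.2⁆ (Y β u) = Y β u := fun p => by
          rw [commute_apply (hzy _ _ _), hu.2 p]
        refine ⟨⟨fun α => ?_, fun w hw => ?_⟩, h3⟩
        · change X α (Y β u) = Y β u
          rw [comm_apply (X α), hu.1.1 α, h3 (α, β)]
        · change ⟪w, Y β u⟫_ℂ = 0
          rw [← hw.2 β, (Y β).inner_map_map]
          exact hu.1.2 w hw)
      (fun β => by
        have h : ∀ m : ℕ, ((Y β).toLinearEquiv : Module.End ℂ V) ^ m =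
            ((Y β ^ m).toLinearEquiv : Module.End ℂ V) := by
          intro m
          induction m with
          | zero => rfl
          | succ m ih => rw [pow_succ, ih, pow_succ]; rfl
        rw [h, hYn]
        rfl)
      (fun β u => by
        change ⟪b, Y β u⟫_ℂ = ⟪b, u⟫_ℂ
        conv_lhs => rw [← hb β]
        exact (Y β).inner_map_map _ _)
      (fun β γ u _ => commute_apply (hyy β γ) u) a haU
    have hu0 : u = 0 := by
      have h := hu.1.2 u ⟨hu.1.1, fun β => hfix β (Finset.mem_univ _)⟩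
      exact inner_self_eq_zero.mp h
    have h0 : ⟪b, a⟫_ℂ = 0 := by
      rw [hu0, map_zero] at hℓ
      exact hℓ.symm
    rw [inner_eq_zero_symm.mp h0]
    simp only [Complex.zero_re, mul_zero]
    positivity

end Pool.Agent.P.MP_09d285_al.FP
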