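import Pool.Agent.P.MP_09d285_al.FP.Angle

/-! Vanishing of the first cohomology with coefficients in finite unitary representations without
invariant vectors. -/

namespace Pool.Agent.P.MP_09d285_al.FP

open scoped InnerProductSpace ComplexConjugate commutatorElement

variable {V : Type*} [NormedAddCommGroup V] [InnerProductSpace ℂ V] {G : Type*} [Group G]

/-- The defining relations, for a family of group elements. -/
structure Rel {t : ℕ} (x : Fin 15 → Idx t → G) : Prop where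
  comm : ∀ i a b, Commute (x i a) (x i b)
  cen : ∀ i j a b c, Commute ⁅x i a, x j b⁆ (x i c)
  sum : ∀ (i j : Fin 15) (l : Fin 3) (a b : Fin t × Fin t) (s : Fin (2 * t)),
    ((anti t s).toList.map fun pq => ⁅x i (emb l pq.1 a), x j (emb l pq.2 b)⁆).prod = 1

theorem Rel.cen' {t : ℕ} {x : Fin 15 → Idx t → G} (h : Rel x) (i j : Fin 15) (a b c : Idx t) :
    Commute ⁅x i a, x j b⁆ (x j c) := by
  rw [← commutatorElement_inv]
  exact (h.cen j i b a c).inv_left

theorem coc_one (ρ : G →* (V ≃ₗᵢ[ℂ] V)) (c : G → V) (hc : ∀ g h, c (g * h) = c g + ρ g (c h)) :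
    c 1 = 0 := by
  have h := hc 1 1
  rw [mul_one, map_one] at h
  exact left_eq_add.mp h

theorem coc_conj (ρ : G →* (V ≃ₗᵢ[ℂ] V)) (c : G → V) (hc : ∀ g h, c (g * h) = c g + ρ g (c h))
    (g k : G) (hk : ρ k = 1) : c (g * k * g⁻¹) = ρ g (c k) := by
  have h := hc g g⁻¹
  rw [mul_inv_cancel, coc_one ρ c hc] at h
  rw [hc, hc, map_mul, hk, mul_one, add_right_comm, ← h, zero_add]

theorem coc_pow (ρ : G →* (V ≃ₗᵢ[ℂ] V)) (c : G → V) (hc : ∀ g h, c (g * h) = c g + ρ g (c h))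
    (n : ℕ) (hn : 0 < n) (hρ : ∀ g, ρ (g ^ n) = 1) (x y : G) (hx : Commute ⁅x, y⁆ x)
    (hy : Commute ⁅x, y⁆ y) : c (⁅x, y⁆ ^ n) = 0 ∧ ρ y (c (x ^ n)) = c (x ^ n) := by
  have h1 : y * x * y⁻¹ = ⁅x, y⁆⁻¹ * x := by
    rw [commutatorElement_def]; group
  have h2 : y * x ^ n * y⁻¹ = (⁅x, y⁆ ^ n)⁻¹ * x ^ n := by
    rw [← conj_pow, h1, hx.inv_left.mul_pow, inv_pow]
  have h3 : c ((⁅x, y⁆ ^ n)⁻¹) = - c (⁅x, y⁆ ^ n) := by
    have h := hc (⁅x, y⁆ ^ n) (⁅x, y⁆ ^ n)⁻¹
    rw [mul_inv_cancel, coc_one ρ c hc, hρ] at h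
    exact (neg_eq_of_add_eq_zero_right h.symm).symm
  have h4 : ρ y (c (x ^ n)) = c (x ^ n) - c (⁅x, y⁆ ^ n) := by
    rw [← coc_conj ρ c hc y _ (hρ x), h2, hc, h3, map_inv, hρ, inv_one]
    change _ + c (x ^ n) = _
    abel
  have h5 : ρ y (c (⁅x, y⁆ ^ n)) = c (⁅x, y⁆ ^ n) := by
    rw [← coc_conj ρ c hc y _ (hρ _), ← (hy.pow_left n).eq, mul_inv_cancel_right]
  have h6 : ∀ m : ℕ, ρ (y ^ m) (c (x ^ n)) = c (x ^ n) - (m : ℂ) • c (⁅x, y⁆ ^ n) := by
    intro m
    induction m with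
    | zero => simp
    | succ m ih =>
      rw [pow_succ', map_mul]
      change ρ y (ρ (y ^ m) (c (x ^ n))) = _
      rw [ih, map_sub, map_smul, h4, h5]
      push_cast
      rw [add_smul, one_smul]
      abel
  have h7 := h6 n
  rw [hρ] at h7
  have h8 : (n : ℂ) • c (⁅x, y⁆ ^ n) = 0 := by
    have : c (x ^ n) = c (x ^ n) - (n : ℂ) • c (⁅x, y⁆ ^ n) := h7
    exact sub_eq_self.mp this.symm
  have h9 : c (⁅x, y⁆ ^ n) = 0 :=
    (smul_eq_zero.mp h8).resolve_left (by exact_mod_cast hn.ne')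
  exact ⟨h9, by rw [h4, h9, sub_zero]⟩

/-- The linear action on `V × ℂ` that extends the affine action given by a cocycle. -/
def ext (ρ : G →* (V ≃ₗᵢ[ℂ] V)) (c : G → V) (hc : ∀ g h, c (g * h) = c g + ρ g (c h)) :
    G →* Module.End ℂ (V × ℂ) where
  toFun g := LinearMap.prod
    (((ρ g).toLinearEquiv : V →ₗ[ℂ] V) ∘ₗ LinearMap.fst ℂ V ℂ +
      (LinearMap.snd ℂ V ℂ).smulRight (c g)) (LinearMap.snd ℂ V ℂ)
  map_one' := by
    refine LinearMap.ext fun u => ?_
    simp [coc_one ρ c hc]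
  map_mul' g h := by
    refine LinearMap.ext fun u => ?_
    simp [hc, add_comm, add_left_comm]

theorem ext_apply (ρ : G →* (V ≃ₗᵢ[ℂ] V)) (c : G → V) (hc : ∀ g h, c (g * h) = c g + ρ g (c h))
    (g : G) (u : V × ℂ) : ext ρ c hc g u = (ρ g u.1 + u.2 • c g, u.2) := rfl

theorem pair_fixed {ι : Type*} [Fintype ι] (ρ : G →* (V ≃ₗᵢ[ℂ] V)) (c : G → V)
    (hc : ∀ g h, c (g * h) = c g + ρ g (c h)) (n : ℕ) (hn : 0 < n) (hρ : ∀ g, ρ (g ^ n) = 1)
    (x y : ι → G) (hxx : ∀ a b, Commute (x a) (x b)) (hyy : ∀ a b, Commute (y a) (y b))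
    (hzx : ∀ a b d, Commute ⁅x a, y b⁆ (x d)) (hzy : ∀ a b d, Commute ⁅x a, y b⁆ (y d))
    (hx : ∀ a, c (x a ^ n) = 0) (hy : ∀ a, c (y a ^ n) = 0) :
    ∃ w : V, (∀ a, ρ (x a) w + c (x a) = w) ∧ ∀ a, ρ (y a) w + c (y a) = w := by
  classical
  set σ := ext ρ c hc with hσ
  have hpow : ∀ g, c (g ^ n) = 0 → σ g ^ n = 1 := by
    intro g hg
    rw [← map_pow]
    refine LinearMap.ext fun u => ?_
    rw [hσ, ext_apply, hρ, hg]
    simp
  have hcm : ∀ g h : G, Commute g h → ∀ u, σ g (σ h u) = σ h (σ g u) := by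
    intro g h hgh u
    rw [← Module.End.mul_apply, ← map_mul, hgh.eq, map_mul, Module.End.mul_apply]
  have hzz : ∀ a b d e, Commute ⁅x a, y b⁆ ⁅x d, y e⁆ := by
    intro a b d e
    rw [commutatorElement_def (x d)]
    exact (((hzx _ _ _).mul_right (hzy _ _ _)).mul_right (hzx _ _ _).inv_right).mul_right
      (hzy _ _ _).inv_right
  obtain ⟨u₁, -, hu₁, hfix₁⟩ := fix Finset.univ (fun p : ι × ι => σ ⁅x p.1, y p.2⁆) n hn
    (LinearMap.snd ℂ V ℂ) ⊤ (fun _ _ _ => Submodule.mem_top)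
    (fun p => hpow _ (coc_pow ρ c hc n hn hρ _ _ (hzx _ _ _) (hzy _ _ _)).1)
    (fun _ _ => rfl) (fun p q u _ => hcm _ _ (hzz _ _ _ _) u) (0, 1) Submodule.mem_top
  let U : Submodule ℂ (V × ℂ) := ⨅ p : ι × ι, LinearMap.eqLocus (σ ⁅x p.1, y p.2⁆) LinearMap.id
  have hU : ∀ u, u ∈ U ↔ ∀ a b, σ ⁅x a, y b⁆ u = u := by
    intro u
    simp only [U, Submodule.mem_iInf, LinearMap.mem_eqLocus, LinearMap.id_apply, Prod.forall]
  have hxy : ∀ a b, ∀ u ∈ U, σ (x a) (σ (y b) u) = σ (y b) (σ (x a) u) := by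
    intro a b u hu
    have h : x a * y b = y b * x a * ⁅x a, y b⁆ := by
      rw [← ((hzy a b b).mul_right (hzx a b a)).eq, commutatorElement_def]
      group
    rw [← Module.End.mul_apply, ← map_mul, h, map_mul, map_mul, Module.End.mul_apply,
      Module.End.mul_apply, (hU u).mp hu]
  obtain ⟨u, -, hu, hfix⟩ := fix Finset.univ (fun s : ι ⊕ ι => σ (Sum.elim x y s)) n hn
    (LinearMap.snd ℂ V ℂ) U
    (fun s u hu => (hU _).mpr fun a b => by
      rcases s with d | d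
      · rw [Sum.elim_inl, hcm _ _ (hzx a b d), (hU u).mp hu]
      · rw [Sum.elim_inr, hcm _ _ (hzy a b d), (hU u).mp hu])
    (fun s => by
      rcases s with d | d
      · exact hpow _ (hx d)
      · exact hpow _ (hy d))
    (fun _ _ => rfl)
    (fun s s' u hu => by
      rcases s with d | d <;> rcases s' with e | e
      · exact hcm _ _ (hxx d e) u
      · exact hxy d e u hu
      · exact (hxy e d u hu).symm
      · exact hcm _ _ (hyy d e) u)
    u₁ ((hU _).mpr fun a b => hfix₁ (a, b) (Finset.mem_univ _))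
  have hu2 : u.2 = 1 := hu.trans hu₁
  have key : ∀ s, ρ (Sum.elim x y s) u.1 + c (Sum.elim x y s) = u.1 := by
    intro s
    have h := congrArg Prod.fst (hfix s (Finset.mem_univ _))
    rw [hσ, ext_apply, hu2, one_smul] at h
    exact h
  exact ⟨u.1, fun a => key (Sum.inl a), fun a => key (Sum.inr a)⟩

theorem pair_ineq {a b u u' : V} (h1 : ⟪a, u⟫_ℂ = 0) (h2 : ⟪b, u'⟫_ℂ = 0) (h : a - b = u - u')
    (hab : 2 * (⟪a, b⟫_ℂ).re ≤ 1 / 16 * (‖a‖ ^ 2 + ‖b‖ ^ 2)) :
    -(1 / 30) * (‖u‖ ^ 2 + ‖u'‖ ^ 2) ≤ (⟪u, u'⟫_ℂ).re := by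
  have e1 := norm_sub_sq (𝕜 := ℂ) a b
  have e2 := norm_sub_sq (𝕜 := ℂ) u u'
  have e3 : ‖a - b‖ ^ 2 = -(⟪a, u'⟫_ℂ).re - (⟪b, u⟫_ℂ).re := by
    have := inner_self_eq_norm_sq (𝕜 := ℂ) (a - b)
    rw [← this]
    conv_lhs => rw [show ⟪a - b, a - b⟫_ℂ = ⟪a - b, u - u'⟫_ℂ by rw [← h]]
    rw [inner_sub_left, inner_sub_right, inner_sub_right, h1, h2]
    simp
  have e4 : -(⟪a, u'⟫_ℂ).re ≤ ‖a‖ * ‖u'‖ :=
    ((neg_le_abs _).trans (Complex.abs_re_le_norm _)).trans (norm_inner_le_norm _ _)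
  have e5 : -(⟪b, u⟫_ℂ).re ≤ ‖b‖ * ‖u‖ :=
    ((neg_le_abs _).trans (Complex.abs_re_le_norm _)).trans (norm_inner_le_norm _ _)
  rw [← h] at e2
  simp only [RCLike.re_to_complex] at e1 e2
  nlinarith [sq_nonneg (15 * ‖a‖ - 16 * ‖u'‖), sq_nonneg (15 * ‖b‖ - 16 * ‖u‖)]

theorem coboundary [FiniteDimensional ℂ V] {t : ℕ} (x : Fin 15 → Idx t → G) (hx : Rel x)
    (hgen : Subgroup.closure (Set.range fun p : Fin 15 × Idx t => x p.1 p.2) = ⊤)
    (ρ : G →* (V ≃ₗᵢ[ℂ] V)) [Finite ρ.range] (c : G → V)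
    (hc : ∀ g h, c (g * h) = c g + ρ g (c h)) (hW : ∀ g, c g ∈ (fixedBy ρ)ᗮ) :
    ∃ v, ∀ g, ρ g v + c g = v := by
  classical
  have hn : 0 < Nat.card ρ.range := Nat.card_pos
  set n := Nat.card ρ.range with hndef
  have hρ : ∀ g, ρ (g ^ n) = 1 := by
    intro g
    have h : (⟨ρ g, g, rfl⟩ : ρ.range) ^ n = 1 := pow_card_eq_one'
    rw [map_pow]
    exact congrArg Subtype.val h
  have hall : ∀ v : V, (∀ i a, ρ (x i a) v = v) → v ∈ fixedBy ρ := by
    intro v hv g
    have hg : g ∈ Subgroup.closure (Set.range fun p : Fin 15 × Idx t => x p.1 p.2) :=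
      hgen ▸ Subgroup.mem_top g
    induction hg using Subgroup.closure_induction with
    | mem g hg => obtain ⟨p, rfl⟩ := hg; exact hv _ _
    | one => rw [map_one]; rfl
    | mul a b _ _ ha hb => rw [map_mul]; change ρ a (ρ b v) = v; rw [hb, ha]
    | inv a _ ha =>
      rw [map_inv]
      conv_lhs => rw [← ha]
      exact (ρ a).symm_apply_apply v
  have hxn : ∀ i a, c (x i a ^ n) = 0 := by
    intro i a
    have h := hall _ fun j b =>
      (coc_pow ρ c hc n hn hρ (x i a) (x j b) (hx.cen _ _ _ _ _) (hx.cen' _ _ _ _ _)).2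
    exact inner_self_eq_zero.mp (hW _ _ h)
  have hpair : ∀ i j, ∃ w : V, (∀ a, ρ (x i a) w + c (x i a) = w) ∧
      ∀ a, ρ (x j a) w + c (x j a) = w := fun i j =>
    pair_fixed ρ c hc n hn hρ (x i) (x j) (hx.comm i) (hx.comm j) (hx.cen i j) (hx.cen' i j)
      (hxn i) (hxn j)
  choose w hw hw' using hpair
  let W : Fin 15 → Submodule ℂ V := fun i => fixedBy fun a => ρ (x i a)
  let S : Submodule ℂ (PiLp 2 fun _ : Fin 15 => V) :=
    { carrier := {s | ∃ v, ∀ i, s i - v ∈ W i}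
      add_mem' := by
        rintro s s' ⟨v, hv⟩ ⟨v', hv'⟩
        refine ⟨v + v', fun i => ?_⟩
        have := (W i).add_mem (hv i) (hv' i)
        rwa [← add_sub_add_comm] at this
      zero_mem' := ⟨0, fun i => by simp⟩
      smul_mem' := by
        rintro r s ⟨v, hv⟩
        refine ⟨r • v, fun i => ?_⟩
        have := (W i).smul_mem r (hv i)
        rwa [smul_sub] at this }
  obtain ⟨s, ⟨v, hv⟩, u, hu, hsu⟩ :=
    S.exists_add_mem_mem_orthogonal (WithLp.toLp 2 fun i => w i i)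
  have hsu' : ∀ i, w i i = s i + u i := fun i => congrArg (fun f => f.ofLp i) hsu
  have hu1 : ∀ i, ∀ y ∈ W i, ⟪y, u i⟫_ℂ = 0 := by
    intro i y hy
    have h := hu (WithLp.toLp 2 (Pi.single i y)) ⟨0, fun j => by
      by_cases hj : j = i
      · subst hj; simpa using hy
      · simp [hj]⟩
    rw [PiLp.inner_apply, Finset.sum_eq_single i] at h
    · simpa using h
    · intro j _ hj
      simp [hj]
    · simp
  have hu2 : ∑ i, u i = 0 := by
    have h := hu (WithLp.toLp 2 fun _ => ∑ i, u i) ⟨∑ i, u i, fun j => by simp⟩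
    rw [PiLp.inner_apply] at h
    rw [← inner_self_eq_zero (𝕜 := ℂ), inner_sum]
    exact h
  have hvu : ∀ i a, ρ (x i a) (v + u i) + c (x i a) = v + u i := by
    intro i a
    have h1 : v + u i = w i i - (s i - v) := by rw [hsu' i]; abel
    rw [h1, map_sub, hv i a, sub_add_eq_add_sub, hw i i a]
  have hdiff : ∀ (i : Fin 15) (p q : V), (∀ a, ρ (x i a) p + c (x i a) = p) →
      (∀ a, ρ (x i a) q + c (x i a) = q) → p - q ∈ W i := by
    intro i p q hp hq a
    rw [map_sub]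
    conv_rhs => rw [← hp a, ← hq a]
    abel
  have hineq : ∀ i j, -(1 / 30) * (‖u i‖ ^ 2 + ‖u j‖ ^ 2) ≤ (⟪u i, u j⟫_ℂ).re := by
    intro i j
    have ha := hdiff i _ _ (hvu i) (hw i j)
    have hb := hdiff j _ _ (hvu j) (hw' i j)
    obtain ⟨y, hy, a, ha', hya⟩ := (W i ⊓ W j).exists_add_mem_mem_orthogonal (v + u i - w i j)
    have ha2 : a ∈ W i := by
      have : a = v + u i - w i j - y := by rw [hya]; abel
      rw [this]
      exact (W i).sub_mem ha hy.1
    have hb2 : v + u j - w i j - y ∈ W j := (W j).sub_mem hb hy.2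
    refine pair_ineq (hu1 i a ha2) (hu1 j _ hb2) ?_ ?_
    · have : a = v + u i - w i j - y := by rw [hya]; abel
      rw [this]
      abel
    · refine angle (fun a => ρ (x i a)) (fun a => ρ (x j a)) ρ.range (fun a => ⟨_, rfl⟩)
        (fun a => ⟨_, rfl⟩) n hn (fun a => by rw [← map_pow, hρ])
        (fun a b => (hx.comm j a b).map ρ) (fun a b d => ?_) (fun a b d => ?_)
        (fun l a b s => ?_) a ⟨ha2, ha'⟩ _ hb2
      · rw [← map_commutatorElement]
        exact (hx.cen i j a b d).map ρ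
      · rw [← map_commutatorElement]
        exact (hx.cen' i j a b d).map ρ
      · have h := congrArg ρ (hx.sum i j l a b s)
        rw [map_list_prod, map_one, List.map_map] at h
        rw [← h]
        congr 2
        funext pq
        simp only [Function.comp_apply, map_commutatorElement]
  have hineq' : ∀ i j, -(1 / 30) * (‖u i‖ ^ 2 + ‖u j‖ ^ 2) +
      (if i = j then 16 / 15 * ‖u i‖ ^ 2 else 0) ≤ (⟪u i, u j⟫_ℂ).re := by
    intro i j
    split_ifs with h
    · subst h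
      have := inner_self_eq_norm_sq (𝕜 := ℂ) (u i)
      simp only [RCLike.re_to_complex] at this
      rw [this]
      linarith
    · simpa using hineq i j
  have hsum : ∑ i, ∑ j, (⟪u i, u j⟫_ℂ).re = 0 := by
    have h : ⟪∑ i, u i, ∑ i, u i⟫_ℂ = 0 := by rw [hu2, inner_zero_left]
    rw [sum_inner] at h
    simp only [inner_sum] at h
    have := congrArg Complex.re h
    simpa only [Complex.re_sum, Complex.zero_re] using this
  have hle := Finset.sum_le_sum (s := Finset.univ) fun i _ =>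
    Finset.sum_le_sum (s := Finset.univ) fun j _ => hineq' i j
  rw [hsum] at hle
  simp only [Finset.sum_add_distrib, Finset.sum_ite_eq, Finset.mem_univ, if_true, mul_add,
    ← Finset.mul_sum, Finset.sum_const, Finset.card_univ, Fintype.card_fin, nsmul_eq_mul] at hle
  have hU0 : ∑ i, ‖u i‖ ^ 2 = 0 := by
    have : 0 ≤ ∑ i, ‖u i‖ ^ 2 := Finset.sum_nonneg fun i _ => sq_nonneg _
    push_cast at hle
    linarith
  have hu0 : ∀ i, u i = 0 := by
    intro i
    have := (Finset.sum_eq_zero_iff_of_nonneg fun i _ => sq_nonneg ‖u i‖).mp hU0 i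
      (Finset.mem_univ i)
    exact norm_eq_zero.mp (pow_eq_zero_iff two_ne_zero |>.mp this)
  refine ⟨v, fun g => ?_⟩
  have hg : g ∈ Subgroup.closure (Set.range fun p : Fin 15 × Idx t => x p.1 p.2) :=
    hgen ▸ Subgroup.mem_top g
  induction hg using Subgroup.closure_induction with
  | mem g hg =>
    obtain ⟨p, rfl⟩ := hg
    have h := hvu p.1 p.2
    rwa [hu0, add_zero] at h
  | one => rw [map_one, coc_one ρ c hc, add_zero]; rfl
  | mul a b _ _ ha hb =>
    rw [map_mul, hc]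
    change ρ a (ρ b v) + (c a + ρ a (c b)) = v
    rw [add_comm (c a), ← add_assoc, ← map_add, hb, ha]
  | inv a _ ha =>
    apply (ρ a).injective
    have h := hc a a⁻¹
    rw [mul_inv_cancel, coc_one ρ c hc] at h
    have h2 : ρ a (ρ a⁻¹ v) = v := by
      rw [map_inv]
      exact (ρ a).apply_symm_apply v
    rw [map_add, h2, eq_neg_of_add_eq_zero_right h.symm]
    conv_lhs => rw [← ha]
    abel

theorem cocycle_eq [FiniteDimensional ℂ V] {t : ℕ} (x : Fin 15 → Idx t → G) (hx : Rel x)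
    (hgen : Subgroup.closure (Set.range fun p : Fin 15 × Idx t => x p.1 p.2) = ⊤)
    (ρ : G →* (V ≃ₗᵢ[ℂ] V)) [Finite ρ.range] (c : G → V)
    (hc : ∀ g h, c (g * h) = c g + ρ g (c h)) :
    ∃ (v : V) (w : G → V), (∀ g h, w (g * h) = w g + w h) ∧ ∀ g, c g = v - ρ g v + w g := by
  let W := fixedBy ρ
  have hπ : ∀ g u, W.starProjection (ρ g u) = W.starProjection u := by
    intro g u
    rw [← sub_eq_zero, ← map_sub]
    refine W.starProjection_apply_eq_zero_iff.mpr ?_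
    intro y hy
    rw [inner_sub_right]
    conv_lhs => enter [1]; rw [← hy g]
    rw [(ρ g).inner_map_map, sub_self]
  obtain ⟨v, hv⟩ := coboundary x hx hgen ρ (fun g => c g - W.starProjection (c g))
    (fun g h => by
      rw [hc, map_add, hπ, map_sub, W.starProjection_apply_mem (c h) g]
      abel)
    (fun g => W.sub_starProjection_mem_orthogonal _)
  refine ⟨v, fun g => W.starProjection (c g), fun g h => by simp only [hc, map_add, hπ],
    fun g => ?_⟩
  conv_rhs => enter [1, 1]; rw [← hv g]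
  abel

end Pool.Agent.P.MP_09d285_al.FP
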