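import Mathlib

/-! Linear algebra for the finitely presented example: averaging, splitting along a finite
abelian group of unitaries, triangular patterns. -/

namespace Pool.Agent.P.MP_09d285_al.FP

open scoped InnerProductSpace ComplexConjugate

/-- Common fixed vector of commuting maps of finite order, with a prescribed value of an
invariant functional. -/
theorem fix {U : Type*} [AddCommGroup U] [Module ℂ U] {ι : Type*} (S : Finset ι)
    (f : ι → Module.End ℂ U) (n : ℕ) (hn : 0 < n) (ℓ : U →ₗ[ℂ] ℂ) (U' : Submodule ℂ U)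
    (hf : ∀ i, ∀ u ∈ U', f i u ∈ U') (hpow : ∀ i, f i ^ n = 1)
    (hℓ : ∀ i u, ℓ (f i u) = ℓ u) (hcomm : ∀ i j, ∀ u ∈ U', f i (f j u) = f j (f i u))
    (u₀ : U) (hu₀ : u₀ ∈ U') : ∃ u ∈ U', ℓ u = ℓ u₀ ∧ ∀ i ∈ S, f i u = u := by
  classical
  induction S using Finset.induction_on with
  | empty => exact ⟨u₀, hu₀, rfl, by simp⟩
  | insert i S _ ih =>
    obtain ⟨u, hu, hℓu, hfu⟩ := ih
    have hn' : (n : ℂ) ≠ 0 := by exact_mod_cast hn.ne'
    have hmem : ∀ m : ℕ, (f i ^ m) u ∈ U' := by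
      intro m
      induction m with
      | zero => simpa using hu
      | succ m ih => rw [pow_succ', Module.End.mul_apply]; exact hf i _ ih
    have hℓm : ∀ m : ℕ, ℓ ((f i ^ m) u) = ℓ u := by
      intro m
      induction m with
      | zero => simp
      | succ m ih => rw [pow_succ', Module.End.mul_apply, hℓ, ih]
    have hfm : ∀ j ∈ S, ∀ m : ℕ, f j ((f i ^ m) u) = (f i ^ m) u := by
      intro j hj m
      induction m with
      | zero => simpa using hfu j hj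
      | succ m ih => rw [pow_succ', Module.End.mul_apply, hcomm j i _ (hmem m), ih]
    refine ⟨(n : ℂ)⁻¹ • ∑ m ∈ Finset.range n, (f i ^ m) u,
      U'.smul_mem _ (U'.sum_mem fun m _ => hmem m), ?_, ?_⟩
    · rw [map_smul, map_sum]
      simp only [hℓm, Finset.sum_const, Finset.card_range, nsmul_eq_mul, smul_eq_mul]
      rw [← mul_assoc, inv_mul_cancel₀ hn', one_mul, hℓu]
    · intro j hj
      rw [map_smul, map_sum]
      congr 1
      rcases Finset.mem_insert.mp hj with rfl | hj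
      · have h1 := Finset.sum_range_succ' (fun m => (f j ^ m) u) n
        have h2 := Finset.sum_range_succ (fun m => (f j ^ m) u) n
        rw [h2, hpow, pow_zero] at h1
        have h3 := add_right_cancel h1
        rw [h3]
        refine Finset.sum_congr rfl fun m _ => ?_
        rw [pow_succ', Module.End.mul_apply]
      · exact Finset.sum_congr rfl fun m _ => hfm j hj m

variable {V : Type*} [NormedAddCommGroup V] [InnerProductSpace ℂ V]

/-- An eigenvector of a unitary map with eigenvalue different from one is orthogonal to the fixed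
vectors. -/
theorem inner_eq_zero_of_eigen (T : V ≃ₗᵢ[ℂ] V) {a b : V} {c : ℂ} (ha : T a = a)
    (hb : T b = c • b) (hc : c ≠ 1) : ⟪a, b⟫_ℂ = 0 := by
  have h := T.inner_map_map a b
  rw [ha, hb, inner_smul_right] at h
  have : (c - 1) * ⟪a, b⟫_ℂ = 0 := by rw [sub_mul, h]; ring
  exact (mul_eq_zero.mp this).resolve_left (sub_ne_zero.mpr hc)

/-- Splitting along the characters of a finite abelian group of unitary maps. -/
theorem split {Z : Type*} [CommGroup Z] [Finite Z] (ρ : Z →* (V ≃ₗᵢ[ℂ] V))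
    (U₁ U₂ : Submodule ℂ V) (h₁ : ∀ z, ∀ u ∈ U₁, ρ z u ∈ U₁) (h₂ : ∀ z, ∀ u ∈ U₂, ρ z u ∈ U₂)
    (ε : ℝ)
    (H : ∀ ψ : Z → ℂ, ∀ a ∈ U₁, ∀ b ∈ U₂, (∀ z, ρ z a = ψ z • a) → (∀ z, ρ z b = ψ z • b) →
      2 * (⟪a, b⟫_ℂ).re ≤ ε * (‖a‖ ^ 2 + ‖b‖ ^ 2)) :
    ∀ a ∈ U₁, ∀ b ∈ U₂, 2 * (⟪a, b⟫_ℂ).re ≤ ε * (‖a‖ ^ 2 + ‖b‖ ^ 2) := by
  classical
  let _ : Fintype Z := Fintype.ofFinite Z
  have hc : (Fintype.card Z : ℂ) ≠ 0 := by exact_mod_cast Fintype.card_ne_zero
  let p : AddChar (Additive Z) ℂ → V → V := fun ψ v =>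
    (Fintype.card Z : ℂ)⁻¹ • ∑ z : Z, ψ (Additive.ofMul z⁻¹) • ρ z v
  have hsum : ∀ v, ∑ ψ, p ψ v = v := by
    intro v
    simp only [p]
    rw [← Finset.smul_sum, Finset.sum_comm]
    simp only [← Finset.sum_smul, AddChar.sum_apply_eq_ite]
    rw [Finset.sum_eq_single (1 : Z)]
    · simp [smul_smul]
    · intro z _ hz
      rw [if_neg, zero_smul]
      simpa using hz
    · simp
  have heig : ∀ ψ v z, ρ z (p ψ v) = ψ (Additive.ofMul z) • p ψ v := by
    intro ψ v z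
    simp only [p]
    rw [map_smul, map_sum, smul_comm (ψ (Additive.ofMul z))]
    congr 1
    rw [Finset.smul_sum]
    refine Fintype.sum_equiv (Equiv.mulLeft z) _ _ fun w => ?_
    simp only [Equiv.coe_mulLeft, map_smul, smul_smul, map_mul, LinearIsometryEquiv.coe_mul,
      Function.comp_apply]
    congr 1
    rw [← AddChar.map_add_eq_mul, ← ofMul_mul]
    congr 2
    rw [mul_inv_rev, mul_comm w⁻¹, mul_inv_cancel_left]
  have hmem : ∀ (U : Submodule ℂ V), (∀ z, ∀ u ∈ U, ρ z u ∈ U) → ∀ ψ, ∀ v ∈ U, p ψ v ∈ U :=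
    fun U hU ψ v hv => U.smul_mem _ (U.sum_mem fun z _ => U.smul_mem _ (hU z v hv))
  have horth : ∀ ψ ψ' : AddChar (Additive Z) ℂ, ψ ≠ ψ' → ∀ v w, ⟪p ψ v, p ψ' w⟫_ℂ = 0 := by
    intro ψ ψ' hne v w
    obtain ⟨z, hz⟩ := DFunLike.ne_iff.mp hne
    have h := (ρ (Additive.toMul z)).inner_map_map (p ψ v) (p ψ' w)
    rw [heig, heig, inner_smul_left, inner_smul_right, ofMul_toMul, ← mul_assoc] at h
    have h1 : conj (ψ z) * ψ z = 1 := by
      rw [← Complex.normSq_eq_conj_mul_self, Complex.normSq_eq_norm_sq, AddChar.norm_apply]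
      simp
    have h2 : conj (ψ z) * ψ' z ≠ 1 := by
      intro h3
      apply hz
      have h4 : conj (ψ z) ≠ 0 := by
        intro h5
        rw [h5, zero_mul] at h1
        exact zero_ne_one h1
      exact mul_left_cancel₀ h4 (h1.trans h3.symm)
    have : (conj (ψ z) * ψ' z - 1) * ⟪p ψ v, p ψ' w⟫_ℂ = 0 := by rw [sub_mul, h]; ring
    exact (mul_eq_zero.mp this).resolve_left (sub_ne_zero.mpr h2)
  have hinner : ∀ v w, ⟪v, w⟫_ℂ = ∑ ψ, ⟪p ψ v, p ψ w⟫_ℂ := by
    intro v w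
    conv_lhs => rw [← hsum v, ← hsum w]
    rw [sum_inner]
    refine Finset.sum_congr rfl fun ψ _ => ?_
    rw [inner_sum, Finset.sum_eq_single ψ]
    · intro ψ' _ hne
      exact horth _ _ hne.symm _ _
    · simp
  have hnorm : ∀ v, ‖v‖ ^ 2 = ∑ ψ, ‖p ψ v‖ ^ 2 := by
    intro v
    have h := congrArg Complex.re (hinner v v)
    rw [Complex.re_sum] at h
    simp only [inner_self_eq_norm_sq_to_K] at h
    have h2 : ∀ w : V, ((‖w‖ : ℂ) ^ 2).re = ‖w‖ ^ 2 := by
      intro w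
      rw [← Complex.ofReal_pow, Complex.ofReal_re]
    simpa only [RCLike.ofReal_eq_complex_ofReal, h2] using h
  intro a ha b hb
  rw [hinner a b, hnorm a, hnorm b, Complex.re_sum, ← Finset.sum_add_distrib, Finset.mul_sum,
    Finset.mul_sum]
  exact Finset.sum_le_sum fun ψ _ => H (fun z => ψ (Additive.ofMul z)) _ (hmem _ h₁ ψ a ha) _
    (hmem _ h₂ ψ b hb) (heig ψ a) (heig ψ b)

/-- A triangular pattern of length `m` in a matrix: entries different from one on the diagonal,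
and ones on one side of it. -/
def Pattern {ι : Type*} (Ψ : ι → ι → ℂ) (m : ℕ) : Prop :=
  ∃ L : List (ι × ι), L.length = m ∧ (∀ p ∈ L, Ψ p.1 p.2 ≠ 1) ∧
    L.Pairwise (fun p q => Ψ p.1 q.2 = 1)

theorem pattern_unit (Ψ : Unit → Unit → ℂ) (h : ∃ a b, Ψ a b ≠ 1) : Pattern Ψ 1 := by
  obtain ⟨a, b, h⟩ := h
  exact ⟨[(a, b)], rfl, by intro p hp; rw [List.mem_singleton.mp hp]; exact h, by simp⟩

theorem pattern_step {ι : Type*} {t m : ℕ} (Ψ : Fin t × ι → Fin t × ι → ℂ)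
    (hblock : ∀ p q : Fin t, (∃ a b, Ψ (p, a) (q, b) ≠ 1) →
      Pattern (fun a b => Ψ (p, a) (q, b)) m)
    (hanti : ∀ (a b : ι) (s : Fin (2 * t)),
      ∏ pq ∈ Finset.univ.filter (fun pq : Fin t × Fin t => (pq.1 : ℕ) + pq.2 = s),
        Ψ (pq.1, a) (pq.2, b) = 1)
    (h : ∃ a b, Ψ a b ≠ 1) : Pattern Ψ (m + m) := by
  classical
  let T := Finset.univ.filter (fun pq : Fin t × Fin t => ∃ a b, Ψ (pq.1, a) (pq.2, b) ≠ 1)
  have hT : T.Nonempty := by
    obtain ⟨a, b, h⟩ := h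
    exact ⟨(a.1, b.1), Finset.mem_filter.mpr ⟨Finset.mem_univ _, a.2, b.2, h⟩⟩
  obtain ⟨pq, hpq, hmax⟩ := T.exists_max_image (fun pq => (pq.1 : ℕ) + pq.2) hT
  obtain ⟨a, b, hab⟩ := (Finset.mem_filter.mp hpq).2
  have hlt : (pq.1 : ℕ) + pq.2 < 2 * t := by have := pq.1.2; have := pq.2.2; omega
  obtain ⟨pq', hs, hne, hab'⟩ : ∃ pq' : Fin t × Fin t, (pq'.1 : ℕ) + pq'.2 = pq.1 + pq.2 ∧
      pq' ≠ pq ∧ Ψ (pq'.1, a) (pq'.2, b) ≠ 1 := by
    by_contra hcon
    push Not at hcon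
    have h1 := hanti a b ⟨_, hlt⟩
    rw [Finset.prod_eq_single pq] at h1
    · exact hab h1
    · intro r hr hne
      exact hcon r (Finset.mem_filter.mp hr).2 hne
    · intro hn
      exact (hn (Finset.mem_filter.mpr ⟨Finset.mem_univ pq, rfl⟩)).elim
  have key : ∀ r r' : Fin t × Fin t, (r.1 : ℕ) + r.2 = pq.1 + pq.2 →
      (r'.1 : ℕ) + r'.2 = pq.1 + pq.2 → (r.1 : ℕ) < r'.1 →
      Ψ (r.1, a) (r.2, b) ≠ 1 → Ψ (r'.1, a) (r'.2, b) ≠ 1 → Pattern Ψ (m + m) := by
    intro r r' hr hr' hlt h1 h2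
    obtain ⟨L, hL1, hL2, hL3⟩ := hblock r.1 r.2 ⟨a, b, h1⟩
    obtain ⟨L', hL1', hL2', hL3'⟩ := hblock r'.1 r'.2 ⟨a, b, h2⟩
    have hz : ∀ c d, Ψ (r'.1, c) (r.2, d) = 1 := by
      intro c d
      by_contra hcd
      have := hmax (r'.1, r.2) (Finset.mem_filter.mpr ⟨Finset.mem_univ _, c, d, hcd⟩)
      simp only at this
      omega
    refine ⟨L'.map (fun p => ((r'.1, p.1), (r'.2, p.2))) ++
      L.map (fun p => ((r.1, p.1), (r.2, p.2))), by simp [hL1, hL1'], ?_, ?_⟩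
    · intro p hp
      rcases List.mem_append.mp hp with hp | hp
      · obtain ⟨q, hq, rfl⟩ := List.mem_map.mp hp
        exact hL2' q hq
      · obtain ⟨q, hq, rfl⟩ := List.mem_map.mp hp
        exact hL2 q hq
    · rw [List.pairwise_append]
      refine ⟨List.pairwise_map.mpr hL3', List.pairwise_map.mpr hL3, ?_⟩
      intro p hp q hq
      obtain ⟨p', _, rfl⟩ := List.mem_map.mp hp
      obtain ⟨q', _, rfl⟩ := List.mem_map.mp hq
      exact hz _ _
  rcases lt_trichotomy (pq.1 : ℕ) pq'.1 with h1 | h1 | h1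
  · exact key pq pq' rfl hs h1 hab hab'
  · exfalso
    apply hne
    ext
    · exact h1.symm
    · omega
  · exact key pq' pq hs rfl h1 hab' hab

/-- The index set of the generators in one block. -/
abbrev Idx (t : ℕ) : Type := Fin t × Fin t × Fin t × Unit

/-- The three ways of inserting one coordinate. -/
def emb {t : ℕ} (l : Fin 3) (p : Fin t) (r : Fin t × Fin t) : Idx t :=
  if l = 0 then (p, r.1, r.2, ()) else if l = 1 then (r.1, p, r.2, ()) else (r.1, r.2, p, ())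

/-- The antidiagonal of the square with coordinate sum `s`. -/
def anti (t : ℕ) (s : Fin (2 * t)) : Finset (Fin t × Fin t) :=
  Finset.univ.filter (fun pq : Fin t × Fin t => (pq.1 : ℕ) + pq.2 = s)

theorem pattern_eight {t : ℕ} (Ψ : Idx t → Idx t → ℂ)
    (hanti : ∀ (l : Fin 3) (a b : Fin t × Fin t) (s : Fin (2 * t)),
      ∏ pq ∈ anti t s, Ψ (emb l pq.1 a) (emb l pq.2 b) = 1)
    (h : ∃ a b, Ψ a b ≠ 1) : Pattern Ψ 8 := by
  refine pattern_step (m := 4) Ψ (fun p q h => ?_) (fun a b s => ?_) h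
  · refine pattern_step (m := 2) _ (fun p' q' h => ?_) (fun a b s => ?_) h
    · refine pattern_step (m := 1) _ (fun p'' q'' h => pattern_unit _ h) (fun a b s => ?_) h
      exact hanti 2 (p, p') (q, q') s
    · exact hanti 1 (p, a.1) (q, b.1) s
  · exact hanti 0 (a.1, a.2.1) (b.1, b.2.1) s

end Pool.Agent.P.MP_09d285_al.FP
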