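import Pool.Agent.P.MP_09d285_al.FP.Coc

/-! The finite presentation and the bound on first Betti numbers of finite-index subgroups. -/

namespace Pool.Agent.P.MP_09d285_al.FP

open scoped TensorProduct commutatorElement

/-- Additive characters of a finite-index subgroup extend to the whole group. -/
theorem extend {G : Type} [Group G] {t : ℕ} (x : Fin 15 → Idx t → G) (hx : Rel x)
    (hgen : Subgroup.closure (Set.range fun p : Fin 15 × Idx t => x p.1 p.2) = ⊤)
    (H : Subgroup G) [H.FiniteIndex] (φ : G → ℂ)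
    (hφ : ∀ a ∈ H, ∀ b ∈ H, φ (a * b) = φ a + φ b) :
    ∃ χ : G → ℂ, (∀ g h, χ (g * h) = χ g + χ h) ∧ ∀ h ∈ H, χ h = φ h := by
  classical
  let _ : Fintype (G ⧸ H) := Fintype.ofFinite _
  let P : Equiv.Perm (G ⧸ H) →* (EuclideanSpace ℂ (G ⧸ H) ≃ₗᵢ[ℂ] EuclideanSpace ℂ (G ⧸ H)) :=
    { toFun := fun e => LinearIsometryEquiv.piLpCongrLeft 2 ℂ ℂ e
      map_one' := by ext v ω; rfl
      map_mul' := fun e f => by ext v ω; rfl }
  let ρ := P.comp (MulAction.toPermHom G (G ⧸ H))
  have hρ : ∀ g (v : EuclideanSpace ℂ (G ⧸ H)) (ω : G ⧸ H), ρ g v ω = v (g⁻¹ • ω) :=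
    fun g v ω => rfl
  have hfin : Finite ρ.range := by
    have h1 : (Set.range P).Finite := Set.finite_range P
    have h2 : (ρ.range : Set _) ⊆ Set.range P := by
      rintro _ ⟨g, rfl⟩
      exact ⟨_, rfl⟩
    exact (h1.subset h2).to_subtype
  have hmem : ∀ (g : G) (ω : G ⧸ H), ω.out⁻¹ * g * (g⁻¹ • ω).out ∈ H := by
    intro g ω
    rw [mul_assoc, ← QuotientGroup.eq, QuotientGroup.out_eq', ← smul_eq_mul,
      ← MulAction.Quotient.smul_mk, QuotientGroup.out_eq', smul_inv_smul]
  let c : G → EuclideanSpace ℂ (G ⧸ H) := fun g =>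
    WithLp.toLp 2 fun ω => φ (ω.out⁻¹ * g * (g⁻¹ • ω).out)
  have hc : ∀ g h, c (g * h) = c g + ρ g (c h) := by
    intro g h
    ext ω
    rw [PiLp.add_apply, hρ]
    change φ (ω.out⁻¹ * (g * h) * ((g * h)⁻¹ • ω).out) =
      φ (ω.out⁻¹ * g * (g⁻¹ • ω).out) + φ ((g⁻¹ • ω).out⁻¹ * h * (h⁻¹ • g⁻¹ • ω).out)
    rw [← hφ _ (hmem g ω) _ (hmem h _), mul_inv_rev, mul_smul]
    congr 1
    group
  obtain ⟨v, w, hw, hcw⟩ := cocycle_eq x hx hgen ρ c hc
  refine ⟨fun g => w g ((1 : G) : G ⧸ H), fun g h => by simp only [hw, PiLp.add_apply],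
    fun h hh => ?_⟩
  have h1 : h⁻¹ • ((1 : G) : G ⧸ H) = ((1 : G) : G ⧸ H) := by
    rw [MulAction.Quotient.smul_mk, QuotientGroup.eq]
    simpa using hh
  have h2 : ((1 : G) : G ⧸ H).out ∈ H := by
    have := QuotientGroup.eq.mp (QuotientGroup.out_eq' ((1 : G) : G ⧸ H)).symm
    simpa using this
  have h3 := congrArg (fun f : EuclideanSpace ℂ (G ⧸ H) => f ((1 : G) : G ⧸ H)) (hcw h)
  simp only [PiLp.add_apply, PiLp.sub_apply, hρ, h1, sub_self, zero_add] at h3
  refine h3.symm.trans ?_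
  change φ (_ * h * (h⁻¹ • ((1 : G) : G ⧸ H)).out) = φ h
  have h4 : φ 1 = 0 := by
    have := hφ 1 H.one_mem 1 H.one_mem
    rw [mul_one] at this
    exact left_eq_add.mp this
  have h5 := hφ _ (H.inv_mem h2) _ h2
  rw [inv_mul_cancel, h4] at h5
  rw [h1, hφ _ (H.mul_mem (H.inv_mem h2) hh) _ h2, hφ _ (H.inv_mem h2) _ hh]
  linear_combination -h5

theorem rank_le {G : Type} [Group G] {t : ℕ} (x : Fin 15 → Idx t → G) (hx : Rel x)
    (hgen : Subgroup.closure (Set.range fun p : Fin 15 × Idx t => x p.1 p.2) = ⊤)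
    (L : Subgroup G) [L.FiniteIndex] :
    Module.rank ℚ (ℚ ⊗[ℤ] Additive (Abelianization L)) ≤ Fintype.card (Fin 15 × Idx t) := by
  classical
  let ι : L → ℚ ⊗[ℤ] Additive (Abelianization L) := fun l =>
    (1 : ℚ) ⊗ₜ[ℤ] Additive.ofMul (Abelianization.of l)
  have hι : ∀ a b : L, ι (a * b) = ι a + ι b := by
    intro a b
    simp only [ι, map_mul, ofMul_mul, TensorProduct.tmul_add]
  let v : Fin 15 × Idx t → ℚ ⊗[ℤ] Additive (Abelianization L) := fun p =>
    ι ⟨x p.1 p.2 ^ L.normalCore.index, L.normalCore_le (L.normalCore.pow_index_mem _)⟩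
  have hspan : Submodule.span ℚ (Set.range v) = ⊤ := by
    by_contra hne
    obtain ⟨ℓ, hℓ0, hℓ⟩ := Submodule.exists_dual_map_eq_bot_of_lt_top
      (lt_top_iff_ne_top.mpr hne) inferInstance
    have hℓv : ∀ i, ℓ (v i) = 0 := by
      intro i
      have : ℓ (v i) ∈ (Submodule.span ℚ (Set.range v)).map ℓ :=
        Submodule.mem_map_of_mem (Submodule.subset_span ⟨i, rfl⟩)
      rwa [hℓ, Submodule.mem_bot] at this
    let φ : G → ℂ := fun g => if hg : g ∈ L then (ℓ (ι ⟨g, hg⟩) : ℂ) else 0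
    have hφ : ∀ g (hg : g ∈ L), φ g = (ℓ (ι ⟨g, hg⟩) : ℂ) := fun g hg => dif_pos hg
    obtain ⟨χ, hχ, hχφ⟩ := extend x hx hgen L φ (by
      intro a ha b hb
      rw [hφ _ (L.mul_mem ha hb), hφ a ha, hφ b hb, ← Rat.cast_add, ← map_add, ← hι]
      rfl)
    have hχ1 : χ 1 = 0 := by
      have := hχ 1 1
      rw [mul_one] at this
      exact left_eq_add.mp this
    have hχpow : ∀ g (k : ℕ), χ (g ^ k) = k * χ g := by
      intro g k
      induction k with
      | zero => simp [hχ1]
      | succ k ih => rw [pow_succ, hχ, ih]; push_cast; ring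
    have hχ0 : ∀ g, χ g = 0 := by
      intro g
      have hg : g ∈ Subgroup.closure (Set.range fun p : Fin 15 × Idx t => x p.1 p.2) :=
        hgen ▸ Subgroup.mem_top g
      induction hg using Subgroup.closure_induction with
      | mem g hg =>
        obtain ⟨p, rfl⟩ := hg
        have hm := L.normalCore_le (L.normalCore.pow_index_mem (x p.1 p.2))
        have h1 := hχφ _ hm
        rw [hφ _ hm, hχpow] at h1
        have h2 : ℓ (ι ⟨_, hm⟩) = 0 := hℓv p
        rw [h2, Rat.cast_zero] at h1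
        have h3 : (L.normalCore.index : ℂ) ≠ 0 := by
          exact_mod_cast Subgroup.FiniteIndex.index_ne_zero
        exact (mul_eq_zero.mp h1).resolve_left h3
      | one => exact hχ1
      | mul a b _ _ ha hb => rw [hχ, ha, hb, add_zero]
      | inv a _ ha =>
        have := hχ a a⁻¹
        rw [mul_inv_cancel, hχ1, ha, zero_add] at this
        exact this.symm
    have hall : ∀ l : L, ℓ (ι l) = 0 := by
      intro l
      have h1 := hχφ l l.2
      rw [hχ0, hφ _ l.2] at h1
      exact_mod_cast h1.symm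
    apply hℓ0
    apply LinearMap.ext
    intro z
    induction z using TensorProduct.induction_on with
    | zero => simp
    | add a b ha hb => rw [map_add, ha, hb]; simp
    | tmul q a =>
      obtain ⟨l, hl⟩ : ∃ l : L, Abelianization.of l = Additive.toMul a :=
        QuotientGroup.mk_surjective (Additive.toMul a)
      have h1 : q ⊗ₜ[ℤ] a = q • ι l := by
        simp only [ι, hl, ofMul_toMul, TensorProduct.smul_tmul', smul_eq_mul, mul_one]
      rw [h1, map_smul, hall, smul_zero]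
      rfl
  rw [← rank_top, ← hspan]
  refine (rank_span_le _).trans ?_
  simpa using Cardinal.mk_range_le_lift (f := v)

/-- The index set of the relators. -/
abbrev RelIdx (t : ℕ) : Type :=
  (Fin 15 × Idx t × Idx t) ⊕ (Fin 15 × Fin 15 × Idx t × Idx t × Idx t) ⊕
    (Fin 15 × Fin 15 × Fin 3 × (Fin t × Fin t) × (Fin t × Fin t) × Fin (2 * t))

/-- The relators, as words in a family of group elements. -/
noncomputable def rel {G : Type*} [Group G] {t : ℕ} (x : Fin 15 → Idx t → G) : RelIdx t → G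
  | Sum.inl p => ⁅x p.1 p.2.1, x p.1 p.2.2⁆
  | Sum.inr (Sum.inl p) => ⁅⁅x p.1 p.2.2.1, x p.2.1 p.2.2.2.1⁆, x p.1 p.2.2.2.2⁆
  | Sum.inr (Sum.inr p) => ((anti t p.2.2.2.2.2).toList.map fun pq =>
      ⁅x p.1 (emb p.2.2.1 pq.1 p.2.2.2.1), x p.2.1 (emb p.2.2.1 pq.2 p.2.2.2.2.1)⁆).prod

theorem map_rel {G G' : Type*} [Group G] [Group G'] {t : ℕ} (x : Fin 15 → Idx t → G)
    (f : G →* G') (j : RelIdx t) : f (rel x j) = rel (fun i a => f (x i a)) j := by
  rcases j with p | p | p
  · simp only [rel, map_commutatorElement]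
  · simp only [rel, map_commutatorElement]
  · simp only [rel, map_list_prod, List.map_map]
    congr 2
    funext pq
    simp only [Function.comp_apply, map_commutatorElement]

theorem rel_of {G : Type*} [Group G] {t : ℕ} (x : Fin 15 → Idx t → G) (h : ∀ j, rel x j = 1) :
    Rel x where
  comm i a b := commutatorElement_eq_one_iff_commute.mp (h (Sum.inl (i, a, b)))
  cen i j a b c := commutatorElement_eq_one_iff_commute.mp (h (Sum.inr (Sum.inl (i, j, a, b, c))))
  sum i j l a b s := h (Sum.inr (Sum.inr (i, j, l, a, b, s)))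

theorem exists_presentation (t : ℕ) (τ : ℝ) :
    ∃ d : ℕ, d = 15 * t ^ 3 ∧ ∃ R : Finset (FreeGroup (Fin d)),
      (∀ w : FreeGroup (Fin d) → ℝ, (∀ r, 0 ≤ w r) →
        (∀ r n, r ∈ (⊤ : Subgroup (FreeGroup (Fin d))).lowerCentralSeries n → w r ≤ τ ^ (n + 1)) →
        ∑ r ∈ R, w r ≤ 15 * t ^ 6 * τ ^ 2 + (225 * t ^ 9 * τ ^ 3 + 1350 * t ^ 5 * τ ^ 2)) ∧
      ∀ L : Subgroup (PresentedGroup (R : Set (FreeGroup (Fin d)))), L.FiniteIndex →
        Module.rank ℚ (ℚ ⊗[ℤ] Additive (Abelianization L)) ≤ d := by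
  classical
  let e := Fintype.equivFin (Fin 15 × Idx t)
  let X : Fin 15 → Idx t → FreeGroup (Fin (Fintype.card (Fin 15 × Idx t))) :=
    fun i a => FreeGroup.of (e (i, a))
  refine ⟨Fintype.card (Fin 15 × Idx t), by simp; ring, Finset.univ.image (rel X), ?_, ?_⟩
  · intro w hw0 hw
    have h2 : ∀ a b : FreeGroup (Fin (Fintype.card (Fin 15 × Idx t))),
        ⁅a, b⁆ ∈ (⊤ : Subgroup _).lowerCentralSeries 1 := fun a b =>
      Subgroup.commutator_mem_commutator (Subgroup.mem_top a) (Subgroup.mem_top b)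
    refine (Finset.sum_image_le_of_nonneg fun u _ => hw0 u).trans ?_
    rw [Fintype.sum_sum_type, Fintype.sum_sum_type]
    refine add_le_add ?_ (add_le_add ?_ ?_)
    · refine (Finset.sum_le_card_nsmul _ _ (τ ^ 2) fun p _ => hw _ 1 (h2 _ _)).trans_eq ?_
      simp only [Finset.card_univ, Fintype.card_prod, Fintype.card_fin, Fintype.card_unit,
        nsmul_eq_mul]
      push_cast
      ring
    · refine (Finset.sum_le_card_nsmul _ _ (τ ^ 3) fun p _ => hw _ 2
        (Subgroup.commutator_mem_commutator (h2 _ _) (Subgroup.mem_top _))).trans_eq ?_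
      simp only [Finset.card_univ, Fintype.card_prod, Fintype.card_fin, Fintype.card_unit,
        nsmul_eq_mul]
      push_cast
      ring
    · refine (Finset.sum_le_card_nsmul _ _ (τ ^ 2) fun p _ => hw _ 1 ?_).trans_eq ?_
      · refine Subgroup.list_prod_mem _ fun z hz => ?_
        obtain ⟨pq, _, rfl⟩ := List.mem_map.mp hz
        exact h2 _ _
      · simp only [Finset.card_univ, Fintype.card_prod, Fintype.card_fin, nsmul_eq_mul]
        push_cast
        ring
  · intro L hL
    refine rank_le (fun i a => PresentedGroup.of (e (i, a))) (rel_of _ fun j => ?_) ?_ L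
    · have h := map_rel X (PresentedGroup.mk ((Finset.univ.image (rel X) : Finset _) : Set _)) j
      rw [PresentedGroup.one_of_mem (Finset.mem_coe.mpr (Finset.mem_image_of_mem _
        (Finset.mem_univ j)))] at h
      exact h.symm
    · rw [← PresentedGroup.closure_range_of]
      congr 1
      exact e.surjective.range_comp PresentedGroup.of

end Pool.Agent.P.MP_09d285_al.FP
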